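import Pool.Agent.H.MP_dfdf13_co.D

set_option autoImplicit false

namespace Pool.Agent.Results.MP_ec4324_co.Gap

/-- Q1 is false: for every `k ≥ 4` and all large primes `p`, no subset of `𝔽_p²` is equidistributed
in exactly `p + 1 - k` directions; in particular the statement of Q1 fails. -/
theorem result :
    (¬ ∀ (p : ℕ) [Fact p.Prime] (d : ℕ), d ≤ p - 2 → ∃ S : Set (ZMod p × ZMod p),
      {v : Submodule (ZMod p) (ZMod p × ZMod p) | Module.finrank (ZMod p) v = 1 ∧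
        ∀ a b : ZMod p × ZMod p,
          {q ∈ S | q - a ∈ v}.ncard = {q ∈ S | q - b ∈ v}.ncard}.ncard = d) ∧
    ∀ k : ℕ, 4 ≤ k → ∃ p₀ : ℕ, ∀ (p : ℕ) [Fact p.Prime], p₀ < p →
      ∀ S : Set (ZMod p × ZMod p),
        {v : Submodule (ZMod p) (ZMod p × ZMod p) | Module.finrank (ZMod p) v = 1 ∧
          ∀ a b : ZMod p × ZMod p,
            {q ∈ S | q - a ∈ v}.ncard = {q ∈ S | q - b ∈ v}.ncard}.ncard ≠ p + 1 - k := by
  refine ⟨fun h => ?_, Pool.Agent.SpecDir.main2⟩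
  obtain ⟨p0, h0⟩ := Pool.Agent.SpecDir.main2 4 le_rfl
  obtain ⟨p, hp, hpp⟩ := Nat.exists_infinite_primes (p0 + 1)
  haveI : Fact p.Prime := ⟨hpp⟩
  obtain ⟨S, hS⟩ := h p (p + 1 - 4) (by omega)
  exact h0 p (by omega) S hS

end Pool.Agent.Results.MP_ec4324_co.Gap
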